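import Mathlib

/-! # Iterated differences, sign changes and blocks -/

set_option autoImplicit false

namespace Pool.Agent.Run7.h649.SH

/-- iterated differences -/
def D : ℕ → (ℕ → ℝ) → ℕ → ℝ
  | 0, f => f
  | k + 1, f => fun j => D k f (j + 1) - D k f j

/-- `{0, …, L}` can be cut into `d` consecutive intervals (possibly empty) on each of which the
`k`-th differences of `f` are all `≥ 0` or all `≤ 0` -/
def Cut (k d L : ℕ) (f : ℕ → ℝ) : Prop :=
  ∃ b : ℕ → ℕ, Monotone b ∧ b 0 = 0 ∧ b d = L + 1 ∧ ∀ i < d,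
    (∀ j, b i ≤ j → j + k < b (i + 1) → 0 ≤ D k f j) ∨
    (∀ j, b i ≤ j → j + k < b (i + 1) → D k f j ≤ 0)

lemma D_two (f : ℕ → ℝ) (j : ℕ) : D 2 f j = f (j + 2) - 2 * f (j + 1) + f j := by
  change (f (j + 1 + 1) - f (j + 1)) - (f (j + 1) - f j) = _
  ring_nf

lemma mono_seq {g : ℕ → ℝ} {a b : ℕ} (h : ∀ i, a ≤ i → i < b → g i ≤ g (i + 1)) :
    ∀ i j, a ≤ i → i ≤ j → j ≤ b → g i ≤ g j := by
  intro i j hi hij
  induction j, hij using Nat.le_induction with
  | base => intro _; exact le_rfl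
  | succ j hij ih =>
    intro hj
    exact (ih (by omega)).trans (h j (by omega) (by omega))

lemma split_seq (g : ℕ → ℝ) (k a b : ℕ) (hab : a ≤ b)
    (h : ∀ j, a ≤ j → j + (k + 1) < b → g j ≤ g (j + 1)) :
    ∃ c, a ≤ c ∧ c ≤ b ∧ (∀ j, a ≤ j → j + k < c → g j ≤ 0) ∧
      (∀ j, c ≤ j → j + k < b → 0 ≤ g j) := by
  classical
  by_cases hex : ∃ j, a ≤ j ∧ j + k < b ∧ 0 ≤ g j
  · obtain ⟨c1, c2, c3⟩ := Nat.find_spec hex
    have hmin : ∀ j, j < Nat.find hex → ¬ (a ≤ j ∧ j + k < b ∧ 0 ≤ g j) :=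
      fun j hj => Nat.find_min hex hj
    refine ⟨Nat.find hex, c1, by omega, ?_, ?_⟩
    · intro j hj1 hj2
      by_contra hcon
      push Not at hcon
      exact hmin j (by omega) ⟨hj1, by omega, hcon.le⟩
    · intro j hj1 hj2
      refine c3.trans (mono_seq (a := a) (b := j) (fun i hi1 hi2 => h i hi1 (by omega)) _ _ c1 hj1 le_rfl)
  · push Not at hex
    refine ⟨b, hab, le_rfl, fun j h1 h2 => (hex j h1 h2).le, fun j h1 h2 => ?_⟩
    omega

lemma cut_step {k d L : ℕ} {f : ℕ → ℝ} (h : Cut (k + 1) d L f) : Cut k (2 * d) L f := by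
  classical
  obtain ⟨b, hb, hb0, hbd, hs⟩ := h
  have hc : ∀ i, ∃ c, b i ≤ c ∧ c ≤ b (i + 1) ∧ (i < d →
      ((∀ j, b i ≤ j → j + k < c → 0 ≤ D k f j) ∨ (∀ j, b i ≤ j → j + k < c → D k f j ≤ 0)) ∧
      ((∀ j, c ≤ j → j + k < b (i + 1) → 0 ≤ D k f j) ∨
        (∀ j, c ≤ j → j + k < b (i + 1) → D k f j ≤ 0))) := by
    intro i
    have hle : b i ≤ b (i + 1) := hb (Nat.le_succ i)
    by_cases hi : i < d
    · rcases hs i hi with h | h
      · obtain ⟨c, c1, c2, c3, c4⟩ := split_seq (D k f) k (b i) (b (i + 1)) hle (fun j h1 h2 => by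
          have := h j h1 h2
          change 0 ≤ D k f (j + 1) - D k f j at this
          linarith)
        exact ⟨c, c1, c2, fun _ => ⟨Or.inr c3, Or.inl c4⟩⟩
      · obtain ⟨c, c1, c2, c3, c4⟩ := split_seq (fun j => -D k f j) k (b i) (b (i + 1)) hle
          (fun j h1 h2 => by
            have := h j h1 h2
            change D k f (j + 1) - D k f j ≤ 0 at this
            change -D k f j ≤ -D k f (j + 1)
            linarith)
        refine ⟨c, c1, c2, fun _ => ⟨Or.inl fun j h1 h2 => ?_, Or.inr fun j h1 h2 => ?_⟩⟩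
        · have := c3 j h1 h2
          change -D k f j ≤ 0 at this
          linarith
        · have := c4 j h1 h2
          change 0 ≤ -D k f j at this
          linarith
    · exact ⟨b i, le_rfl, hle, fun h => absurd h hi⟩
  choose c hc1 hc2 hc3 using hc
  have ev : ∀ i, (2 * i) / 2 = i := fun i => by omega
  have od : ∀ i, (2 * i + 1) / 2 = i := fun i => by omega
  refine ⟨fun n => if n % 2 = 0 then b (n / 2) else c (n / 2), ?_, ?_, ?_, ?_⟩
  · refine monotone_nat_of_le_succ fun n => ?_
    rcases Nat.even_or_odd' n with ⟨i, rfl | rfl⟩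
    · have e1 : (2 * i) % 2 = 0 := by omega
      have e2 : ¬ (2 * i + 1) % 2 = 0 := by omega
      simp only [e1, e2, if_true, if_false, ev, od]
      exact hc1 i
    · have e1 : ¬ (2 * i + 1) % 2 = 0 := by omega
      have e2 : (2 * i + 1 + 1) % 2 = 0 := by omega
      have e3 : (2 * i + 1 + 1) / 2 = i + 1 := by omega
      simp only [e1, e2, e3, if_true, if_false, od]
      exact hc2 i
  · simp [hb0]
  · have e1 : (2 * d) % 2 = 0 := by omega
    simp only [e1, if_true, ev]
    exact hbd
  · intro n hn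
    rcases Nat.even_or_odd' n with ⟨i, rfl | rfl⟩
    · have e1 : (2 * i) % 2 = 0 := by omega
      have e2 : ¬ (2 * i + 1) % 2 = 0 := by omega
      simp only [e1, e2, if_true, if_false, ev, od]
      exact (hc3 i (by omega)).1
    · have e1 : ¬ (2 * i + 1) % 2 = 0 := by omega
      have e2 : (2 * i + 1 + 1) % 2 = 0 := by omega
      have e3 : (2 * i + 1 + 1) / 2 = i + 1 := by omega
      simp only [e1, e2, e3, if_true, if_false, od]
      exact (hc3 i (by omega)).2

lemma cut_two {L : ℕ} {f : ℕ → ℝ} : ∀ (k d : ℕ), Cut (k + 2) d L f → Cut 2 (2 ^ k * d) L f := by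
  intro k
  induction k with
  | zero => intro d h; simpa using h
  | succ k ih =>
    intro d h
    have h1 : Cut (k + 2) (2 * d) L f := cut_step h
    have h2 := ih (2 * d) h1
    have e : 2 ^ k * (2 * d) = 2 ^ (k + 1) * d := by ring
    rwa [e] at h2

/-- few blocks are not contained in one of the intervals -/
lemma blocks {b : ℕ → ℕ} {d m B : ℕ} (hm : 0 < m) (hb0 : b 0 = 0) (hbd : 3 * m * B ≤ b d)
    [DecidablePred fun i => ∃ l < d, b l ≤ 3 * m * i ∧ 3 * m * (i + 1) ≤ b (l + 1)] :
    ((Finset.range B).filter fun i =>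
      ¬ ∃ l < d, b l ≤ 3 * m * i ∧ 3 * m * (i + 1) ≤ b (l + 1)).card ≤ d := by
  classical
  have hsub : ((Finset.range B).filter fun i =>
      ¬ ∃ l < d, b l ≤ 3 * m * i ∧ 3 * m * (i + 1) ≤ b (l + 1)) ⊆
      (Finset.range d).image fun l => b (l + 1) / (3 * m) := by
    intro i hi
    rw [Finset.mem_filter, Finset.mem_range] at hi
    obtain ⟨hi1, hi2⟩ := hi
    have hlt : 3 * m * i < 3 * m * B := Nat.mul_lt_mul_of_pos_left hi1 (by omega)
    have hex : ∃ t, 3 * m * i < b t := ⟨d, by omega⟩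
    have h1 := Nat.find_spec hex
    have h2 : ∀ t, t < Nat.find hex → ¬ 3 * m * i < b t := fun t ht => Nat.find_min hex ht
    have h3 : Nat.find hex ≤ d := Nat.find_min' hex (by omega)
    have h4 : Nat.find hex ≠ 0 := by
      intro h0
      rw [h0, hb0] at h1
      omega
    obtain ⟨l, hl⟩ := Nat.exists_eq_succ_of_ne_zero h4
    rw [hl] at h1 h2 h3
    rw [Finset.mem_image]
    refine ⟨l, Finset.mem_range.mpr (by omega), ?_⟩
    have h5 : b l ≤ 3 * m * i := not_lt.mp (h2 l (by omega))
    have h6 : b (l + 1) < 3 * m * (i + 1) := by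
      by_contra hcon
      exact hi2 ⟨l, by omega, h5, not_lt.mp hcon⟩
    have e : 3 * m * (i + 1) = 3 * m * i + 3 * m := by ring
    have h1' : 3 * m * i < b (l + 1) := h1
    apply Nat.div_eq_of_lt_le
    · rw [mul_comm]; exact h1'.le
    · rw [mul_comm]; exact h6
  exact (Finset.card_le_card hsub).trans (Finset.card_image_le.trans (Finset.card_range d).le)

/-- few blocks contain many elements of a small set -/
lemma few_full {Z : Finset ℕ} {m B : ℕ} {δ : ℝ} (hm : 0 < m) :
    (((Finset.range B).filter fun i => δ * m < ((Z.filter fun j => j / (3 * m) = i).card : ℝ)).card :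
      ℝ) * (δ * m) ≤ Z.card := by
  classical
  have h1 : ∑ i ∈ Finset.range B, (Z.filter fun j => j / (3 * m) = i).card ≤ Z.card := by
    have h2 : ((Z.filter fun j => j / (3 * m) < B)).card =
        ∑ i ∈ Finset.range B, ((Z.filter fun j => j / (3 * m) < B).filter
          fun j => j / (3 * m) = i).card := by
      apply Finset.card_eq_sum_card_fiberwise
      intro j hj
      rw [Finset.mem_coe, Finset.mem_filter] at hj
      exact Finset.mem_coe.mpr (Finset.mem_range.mpr hj.2)
    have h3 : ∑ i ∈ Finset.range B, (Z.filter fun j => j / (3 * m) = i).card =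
        ∑ i ∈ Finset.range B, ((Z.filter fun j => j / (3 * m) < B).filter
          fun j => j / (3 * m) = i).card := by
      refine Finset.sum_congr rfl fun i hi => ?_
      congr 1
      ext j
      simp only [Finset.mem_filter]
      rw [Finset.mem_range] at hi
      constructor
      · rintro ⟨a, b⟩; exact ⟨⟨a, by omega⟩, b⟩
      · rintro ⟨⟨a, _⟩, b⟩; exact ⟨a, b⟩
    rw [h3, ← h2]
    exact Finset.card_le_card (Finset.filter_subset _ _)
  have h4 : (((Finset.range B).filter fun i =>
      δ * m < ((Z.filter fun j => j / (3 * m) = i).card : ℝ)).card : ℝ) * (δ * m) ≤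
      ∑ i ∈ Finset.range B, ((Z.filter fun j => j / (3 * m) = i).card : ℝ) := by
    calc _ = ∑ i ∈ (Finset.range B).filter fun i =>
        δ * m < ((Z.filter fun j => j / (3 * m) = i).card : ℝ), (δ * m) := by
          rw [Finset.sum_const, nsmul_eq_mul]
      _ ≤ ∑ i ∈ (Finset.range B).filter fun i =>
        δ * m < ((Z.filter fun j => j / (3 * m) = i).card : ℝ),
          ((Z.filter fun j => j / (3 * m) = i).card : ℝ) :=
          Finset.sum_le_sum fun i hi => (Finset.mem_filter.mp hi).2.le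
      _ ≤ _ := Finset.sum_le_sum_of_subset_of_nonneg (Finset.filter_subset _ _)
          fun i _ _ => Nat.cast_nonneg _
  refine h4.trans ?_
  exact_mod_cast h1

end Pool.Agent.Run7.h649.SH
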