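import Pool.Agent.R846.SP.B
import Pool.Agent.Run7.h649.SH.Comb

/-! # The ordinates are far from all sequences with few changes of sign of the `k`-th differences -/

set_option autoImplicit false

open Filter Topology Set MeasureTheory

namespace Pool.Agent.Run7.h649.SH

open SG (ord NZ)
open Pool.Agent.R321.QA (ct ct_eq ct_le ct_nonneg ct_mono quenched)
open Pool.Agent.Y743.CL (gs Ph Ph_mono Ph_le_one Ph_nonneg lm lm_nonneg Ev)
open Pool.Agent.R846.UL (cn cn_mono cn_union cn_lt cn_biUnion cn_fin cn_nonneg cn_eq)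
open Pool.Agent.R846.SP (WW Ev_iff Law incr unf_lin ord_size span law_few Ph_lt Ph_pos)

/-- a good index outside a small set -/
lemma law_ex' {e c : ℝ} {m p : ℕ} (hm : 0 < m) (h : Law e m p) (S : Finset ℕ)
    (hS : (S.card : ℝ) ≤ c * m) (he : e + c < Ph 1) :
    ∃ j < m, j ∉ S ∧ WW (p + j + m) - WW (p + j) ≤ m + lm m := by
  classical
  have hm' : (0 : ℝ) < m := by exact_mod_cast hm
  by_contra hcon
  push Not at hcon
  have h1 := (abs_le.mp (h 1)).1
  rw [ct_eq] at h1
  have h2 : ((Finset.Ico p (p + m)).filter (fun k => Ev 1 m k)).card ≤ S.card := by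
    refine Finset.card_le_card_of_injOn (fun k => k - p) ?_ ?_
    · intro k hk
      rw [Finset.mem_coe, Finset.mem_filter, Finset.mem_Ico] at hk
      obtain ⟨⟨k1, k2⟩, k3⟩ := hk
      obtain ⟨j, rfl⟩ := Nat.exists_eq_add_of_le k1
      rw [Finset.mem_coe]
      by_contra hj
      have e1 : p + j - p = j := by omega
      have hj' : j ∉ S := by
        intro hjs
        apply hj
        change p + j - p ∈ S
        rw [e1]
        exact hjs
      have h3 := hcon j (by omega) hj'
      rw [Ev_iff, one_mul] at k3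
      linarith
    · intro a ha b hb hab
      rw [Finset.mem_coe, Finset.mem_filter, Finset.mem_Ico] at ha hb
      have : a - p = b - p := hab
      omega
  have h3 : (((Finset.Ico p (p + m)).filter (fun k => Ev 1 m k)).card : ℝ) ≤ c * m :=
    le_trans (by exact_mod_cast h2) hS
  nlinarith

lemma law_not' {e c X : ℝ} {m p : ℕ} (hm : 0 < m) (h : Law e m p) (S : Finset ℕ)
    (hS : (S.card : ℝ) ≤ c * m) (he : e + c < 1 - Ph X)
    (hall : ∀ j < m, j ∉ S → WW (p + j + m) - WW (p + j) ≤ m + X * lm m) : False := by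
  classical
  have hm' : (0 : ℝ) < m := by exact_mod_cast hm
  have h1 := (abs_le.mp (h X)).2
  rw [ct_eq] at h1
  have h2 : m ≤ ((Finset.Ico p (p + m)).filter (fun k => Ev X m k)).card + S.card := by
    have h3 : Finset.Ico p (p + m) ⊆
        ((Finset.Ico p (p + m)).filter (fun k => Ev X m k)) ∪ S.image (fun j => p + j) := by
      intro k hk
      rw [Finset.mem_union, Finset.mem_filter, Finset.mem_image]
      have hk' := hk
      rw [Finset.mem_Ico] at hk
      obtain ⟨j, rfl⟩ := Nat.exists_eq_add_of_le hk.1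
      by_cases hj : j ∈ S
      · exact Or.inr ⟨j, hj, rfl⟩
      · exact Or.inl ⟨hk', (Ev_iff _ _ _).mpr (hall j (by omega) hj)⟩
    have h4 := (Finset.card_le_card h3).trans (Finset.card_union_le _ _)
    rw [Nat.card_Ico, Nat.add_sub_cancel_left] at h4
    exact h4.trans (Nat.add_le_add_left Finset.card_image_le _)
  have h3 : (m : ℝ) ≤ (((Finset.Ico p (p + m)).filter (fun k => Ev X m k)).card : ℝ) + S.card := by
    exact_mod_cast h2
  nlinarith

/-- **two blocks with the normal law and a convex or concave function near most ordinates** -/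
theorem two_blocks' {e c C E : ℝ} {m p : ℕ} (hm : 0 < m) (hE : E ≤ C * lm m)
    (he1 : e + c < Ph 1) (he2 : e + c < 1 - Ph (1 + 4 * C)) (hP : Law e m p) (hQ : Law e m (p + m))
    (F : ℕ → ℝ) (Z : Finset ℕ) (hZ : (Z.card : ℝ) ≤ c * m)
    (hF : ∀ j < 3 * m, j ∉ Z → |WW (p + j) - F j| ≤ E)
    (hs : (∀ j, j + 2 < 3 * m → 2 * F (j + 1) ≤ F j + F (j + 2)) ∨
      (∀ j, j + 2 < 3 * m → F j + F (j + 2) ≤ 2 * F (j + 1))) : False := by
  classical
  -- the exceptional sets of the two blocks
  obtain ⟨SP, hSP⟩ : ∃ SP : Finset ℕ, SP = (Finset.range m).filter (fun j => j ∈ Z ∨ j + m ∈ Z) :=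
    ⟨_, rfl⟩
  obtain ⟨SQ, hSQ⟩ : ∃ SQ : Finset ℕ, SQ = (Finset.range m).filter
    (fun j => m + j ∈ Z ∨ m + j + m ∈ Z) := ⟨_, rfl⟩
  have cP : (SP.card : ℝ) ≤ c * m := by
    refine le_trans ?_ hZ
    have h1 : SP ⊆ ((Z.filter fun j => j < m)) ∪ ((Z.filter fun j => m ≤ j).image fun j => j - m) := by
      intro j hj
      rw [hSP, Finset.mem_filter, Finset.mem_range] at hj
      rw [Finset.mem_union, Finset.mem_filter, Finset.mem_image]
      rcases hj.2 with h | h
      · exact Or.inl ⟨h, hj.1⟩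
      · exact Or.inr ⟨j + m, Finset.mem_filter.mpr ⟨h, by omega⟩, by omega⟩
    have h2 : SP.card ≤ (Z.filter fun j => j < m).card + (Z.filter fun j => m ≤ j).card :=
      (Finset.card_le_card h1).trans ((Finset.card_union_le _ _).trans
        (Nat.add_le_add_left Finset.card_image_le _))
    have h3 : (Z.filter fun j => j < m).card + (Z.filter fun j => m ≤ j).card ≤ Z.card := by
      rw [← Finset.card_union_of_disjoint]
      · exact Finset.card_le_card (Finset.union_subset (Finset.filter_subset _ _)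
          (Finset.filter_subset _ _))
      · rw [Finset.disjoint_filter]
        intro j _ h4 h5
        omega
    exact_mod_cast h2.trans h3
  have cQ : (SQ.card : ℝ) ≤ c * m := by
    refine le_trans ?_ hZ
    have h1 : SQ ⊆ ((Z.filter fun j => j < 2 * m).image fun j => j - m) ∪
        ((Z.filter fun j => 2 * m ≤ j).image fun j => j - 2 * m) := by
      intro j hj
      rw [hSQ, Finset.mem_filter, Finset.mem_range] at hj
      rw [Finset.mem_union, Finset.mem_image, Finset.mem_image]
      rcases hj.2 with h | h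
      · exact Or.inl ⟨m + j, Finset.mem_filter.mpr ⟨h, by omega⟩, by omega⟩
      · exact Or.inr ⟨m + j + m, Finset.mem_filter.mpr ⟨h, by omega⟩, by omega⟩
    have h2 : SQ.card ≤ (Z.filter fun j => j < 2 * m).card + (Z.filter fun j => 2 * m ≤ j).card :=
      (Finset.card_le_card h1).trans ((Finset.card_union_le _ _).trans
        (Nat.add_le_add Finset.card_image_le Finset.card_image_le))
    have h3 : (Z.filter fun j => j < 2 * m).card + (Z.filter fun j => 2 * m ≤ j).card ≤ Z.card := by
      rw [← Finset.card_union_of_disjoint]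
      · exact Finset.card_le_card (Finset.union_subset (Finset.filter_subset _ _)
          (Finset.filter_subset _ _))
      · rw [Finset.disjoint_filter]
        intro j _ h4 h5
        omega
    exact_mod_cast h2.trans h3
  have nP : ∀ j < m, j ∉ SP → j ∉ Z ∧ j + m ∉ Z := by
    intro j hj h
    rw [hSP, Finset.mem_filter, Finset.mem_range, not_and, not_or] at h
    exact h hj
  have nQ : ∀ j < m, j ∉ SQ → m + j ∉ Z ∧ m + j + m ∉ Z := by
    intro j hj h
    rw [hSQ, Finset.mem_filter, Finset.mem_range, not_and, not_or] at h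
    exact h hj
  have key : ∀ i j, i < 2 * m → j < 2 * m → i ∉ Z → i + m ∉ Z → j ∉ Z → j + m ∉ Z →
      F (i + m) - F i ≤ F (j + m) - F j →
      WW (p + j + m) - WW (p + j) ≤ m + lm m →
      WW (p + i + m) - WW (p + i) ≤ m + (1 + 4 * C) * lm m := by
    intro i j hi hj z1 z2 z3 z4 h1 h2
    have a1 := abs_le.mp (hF (i + m) (by omega) z2)
    have a2 := abs_le.mp (hF i (by omega) z1)
    have a3 := abs_le.mp (hF (j + m) (by omega) z4)
    have a4 := abs_le.mp (hF j (by omega) z3)
    rw [← add_assoc] at a1 a3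
    linarith [a1.1, a1.2, a2.1, a2.2, a3.1, a3.2, a4.1, a4.2]
  rcases hs with hs | hs
  · obtain ⟨j, hj, hjS, h1⟩ := law_ex' hm hQ SQ cQ he1
    obtain ⟨z3, z4⟩ := nQ j hj hjS
    refine law_not' hm hP SP cP he2 fun i hi hiS => ?_
    obtain ⟨z1, z2⟩ := nP i hi hiS
    refine key i (m + j) (by omega) (by omega) z1 z2 z3 z4
      (incr hm hs i (m + j) (by omega) (by omega)) ?_
    rw [← add_assoc]
    exact h1
  · obtain ⟨j, hj, hjS, h1⟩ := law_ex' hm hP SP cP he1
    obtain ⟨z3, z4⟩ := nP j hj hjS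
    refine law_not' hm hQ SQ cQ he2 fun i hi hiS => ?_
    obtain ⟨z1, z2⟩ := nQ i hi hiS
    have h3 := incr (F := fun k => -F k) hm (fun k hk => by
      have := hs k hk
      linarith) j (m + i) (by omega) (by omega)
    have h4 := key (m + i) j (by omega) (by omega) z1 z2 z3 z4 (by linarith) h1
    rw [← add_assoc] at h4
    exact h4

/-- the number of `i < B` with the property `P` -/
noncomputable def cc (B : ℕ) (P : ℕ → Prop) : ℝ := by
  classical exact (((Finset.range B).filter P).card : ℝ)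

lemma cc_eq (B : ℕ) (P : ℕ → Prop) [DecidablePred P] :
    cc B P = (((Finset.range B).filter P).card : ℝ) := by
  unfold cc
  congr!

/-- Markov's inequality -/
lemma cn_markov (N B : ℕ) (P : ℕ → ℕ → Prop) (t : ℝ) :
    cn N {n | t < cc B fun i => P i n} * t ≤ ∑ i ∈ Finset.range B, cn N {n | P i n} := by
  classical
  have e1 : ∀ i, cn N {n | P i n} = ∑ n ∈ Finset.Icc 1 N, (if P i n then (1 : ℝ) else 0) := by
    intro i
    rw [cn_eq, Finset.sum_boole]
  have e2 : ∀ n, (cc B fun i => P i n) = ∑ i ∈ Finset.range B, (if P i n then (1 : ℝ) else 0) := by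
    intro n
    rw [cc_eq, Finset.sum_boole]
  have h1 : ∑ i ∈ Finset.range B, cn N {n | P i n} = ∑ n ∈ Finset.Icc 1 N, cc B fun i => P i n := by
    simp only [e1, e2]
    exact Finset.sum_comm
  rw [h1, cn_eq]
  calc (((Finset.Icc 1 N).filter fun n => t < cc B fun i => P i n).card : ℝ) * t =
      ∑ n ∈ (Finset.Icc 1 N).filter fun n => t < cc B fun i => P i n, t := by
        rw [Finset.sum_const, nsmul_eq_mul]
    _ ≤ ∑ n ∈ (Finset.Icc 1 N).filter fun n => t < cc B fun i => P i n, cc B fun i => P i n :=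
        Finset.sum_le_sum fun n hn => (Finset.mem_filter.mp hn).2.le
    _ ≤ _ := by
        refine Finset.sum_le_sum_of_subset_of_nonneg (Finset.filter_subset _ _) fun n _ _ => ?_
        rw [cc_eq]
        exact Nat.cast_nonneg _

theorem cut_main (k : ℕ) (M : ℝ) {η : ℝ} (hη : 0 < η) : ∃ ε : ℝ, 0 < ε ∧ ∃ m₀ : ℕ, ∀ m : ℕ, m₀ ≤ m →
    ∀ L d N : ℕ, 1 ≤ N → (d : ℝ) * m ≤ ε * L → (L : ℝ) * Real.log L ≤ Real.log N →
    cn N {n | ∃ f : ℕ → ℝ, Cut (k + 2) d L f ∧
      (({j : ℕ | j ≤ L ∧ M * Real.sqrt (Real.log m) / Real.log (ord n) < |ord (n + j) - f j|} :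
        Set ℕ).ncard : ℝ) ≤ ε * L} ≤ η * N := by
  classical
  have hpi := Real.pi_gt_three
  have hpi4 := Real.pi_lt_four
  obtain ⟨C, hC⟩ : ∃ C : ℝ, C = 4 * |M| + 4 := ⟨_, rfl⟩
  have hp1 := Ph_pos 1
  have hp2 := Ph_lt (1 + 4 * C)
  obtain ⟨c, hc⟩ : ∃ c : ℝ, c = min (Ph 1 / 4) ((1 - Ph (1 + 4 * C)) / 4) := ⟨_, rfl⟩
  have hc0 : 0 < c := by rw [hc]; exact lt_min (by linarith) (by linarith)
  have hc1 : c ≤ Ph 1 / 4 := by rw [hc]; exact min_le_left _ _
  have hc2 : c ≤ (1 - Ph (1 + 4 * C)) / 4 := by rw [hc]; exact min_le_right _ _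
  obtain ⟨e, he⟩ : ∃ e : ℝ, e = min c (min 1 (η / 64)) := ⟨_, rfl⟩
  have he0 : 0 < e := by rw [he]; exact lt_min hc0 (lt_min one_pos (by positivity))
  have hec : e ≤ c := by rw [he]; exact min_le_left _ _
  have he3 : e ≤ 1 := by rw [he]; exact (min_le_right _ _).trans (min_le_left _ _)
  have he4 : e ≤ η / 64 := by rw [he]; exact (min_le_right _ _).trans (min_le_right _ _)
  have he1 : e + c < Ph 1 := by linarith
  have he2 : e + c < 1 - Ph (1 + 4 * C) := by linarith
  obtain ⟨K, hK⟩ : ∃ K : ℝ, K = (2 : ℝ) ^ k := ⟨_, rfl⟩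
  have hK0 : 0 < K := by rw [hK]; positivity
  obtain ⟨ε, hε⟩ : ∃ ε : ℝ, ε = min (1 / 12) (1 / (16 * (K + 1 / c))) := ⟨_, rfl⟩
  have hε0 : 0 < ε := by rw [hε]; exact lt_min (by norm_num) (by positivity)
  have hε1 : ε ≤ 1 / 12 := by rw [hε]; exact min_le_left _ _
  have hε2 : ε * (16 * (K + 1 / c)) ≤ 1 := by
    have h1 : ε ≤ 1 / (16 * (K + 1 / c)) := by rw [hε]; exact min_le_right _ _
    rwa [le_div_iff₀ (by positivity)] at h1
  obtain ⟨r0, hr0⟩ := (quenched e 1 he0 he3 one_pos le_rfl).exists_forall_of_atTop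
  obtain ⟨N0, hN0⟩ := span (by positivity : 0 < η / 4)
  obtain ⟨n0, hn0, hsz⟩ := ord_size
  obtain ⟨N1, hN1⟩ := exists_nat_ge (4 * n0 / η)
  refine ⟨ε, hε0, max r0 (max (max N0 N1) 3), fun m hm L d N hN hdm hLN => ?_⟩
  have hmr : r0 ≤ m := (le_max_left _ _).trans hm
  have hmN0 : N0 ≤ m := ((le_max_left _ _).trans ((le_max_left _ _).trans (le_max_right _ _))).trans hm
  have hmN1 : N1 ≤ m := ((le_max_right _ _).trans ((le_max_left _ _).trans (le_max_right _ _))).trans hm
  have hm3 : 3 ≤ m := ((le_max_right _ _).trans (le_max_right _ _)).trans hm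
  have hm0 : 0 < m := by omega
  have hmpos : (0 : ℝ) < m := by exact_mod_cast hm0
  have hm3r : (3 : ℝ) ≤ m := by exact_mod_cast hm3
  have hNpos : (0 : ℝ) < N := by exact_mod_cast hN
  rcases Nat.eq_zero_or_pos d with hd | hd
  · have h0 : cn N {n | ∃ f : ℕ → ℝ, Cut (k + 2) d L f ∧
      (({j : ℕ | j ≤ L ∧ M * Real.sqrt (Real.log m) / Real.log (ord n) < |ord (n + j) - f j|} :
        Set ℕ).ncard : ℝ) ≤ ε * L} ≤ cn N ∅ := by
      refine cn_mono fun n _ _ hn => ?_
      obtain ⟨f, ⟨b, _, hb0, hbd, _⟩, _⟩ := hn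
      rw [hd] at hbd
      omega
    rw [Pool.Agent.R846.UL.cn_empty] at h0
    exact h0.trans (by positivity)
  have hd1 : (1 : ℝ) ≤ d := by exact_mod_cast hd
  have hmεL : (m : ℝ) ≤ ε * L := le_trans (by nlinarith) hdm
  have hL0 : (0 : ℝ) ≤ L := Nat.cast_nonneg _
  have h12 : 12 * (m : ℝ) ≤ L := by nlinarith
  have hLr : (3 : ℝ) ≤ L := by linarith
  have hmL : m ≤ L := by
    have : (m : ℝ) ≤ L := by linarith
    exact_mod_cast this
  have hL1 : 1 ≤ L := by omega
  have hlogL : 1 ≤ Real.log L := by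
    rw [Real.le_log_iff_exp_le (by linarith)]
    have := Real.exp_one_lt_d9
    linarith
  have hlogm : 1 ≤ Real.log m := by
    rw [Real.le_log_iff_exp_le (by linarith)]
    have := Real.exp_one_lt_d9
    linarith
  have hLlogN : (L : ℝ) ≤ Real.log N := by nlinarith
  have hLNr : (L : ℝ) ≤ N := by
    have := Real.log_le_sub_one_of_pos hNpos
    linarith
  have hLNn : L ≤ N := by exact_mod_cast hLNr
  -- the blocks
  obtain ⟨B, hB⟩ : ∃ B : ℕ, B = (L + 1) / (3 * m) := ⟨_, rfl⟩
  have hB1 : 3 * m * B ≤ L + 1 := by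
    rw [hB]
    exact Nat.mul_div_le _ _
  have hB2 : L + 1 < 3 * m * (B + 1) := by
    have := Nat.lt_mul_div_succ (L + 1) (by omega : 0 < 3 * m)
    rw [← hB] at this
    exact this
  have hB3 : (L : ℝ) ≤ 4 * m * B := by
    have h1 : (L : ℝ) + 1 < 3 * m * (B + 1) := by exact_mod_cast hB2
    nlinarith
  have hBpos : (0 : ℝ) < B := by
    by_contra hcon
    push Not at hcon
    nlinarith
  have hlm1 : Real.sqrt (Real.log m) ≤ 4 * lm m := by
    unfold lm
    rw [← mul_div_assoc, le_div_iff₀ Real.pi_pos]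
    have h4 : 0 ≤ Real.sqrt (Real.log m) := Real.sqrt_nonneg _
    nlinarith
  have hlm2 : 1 ≤ 4 * lm m := by
    refine le_trans ?_ hlm1
    rw [Real.one_le_sqrt]
    exact hlogm
  obtain ⟨E, hE⟩ : ∃ E : ℝ, E = |M| * Real.sqrt (Real.log m) + 1 := ⟨_, rfl⟩
  have hEC : E ≤ C * lm m := by
    rw [hE, hC]
    have h1 : |M| * Real.sqrt (Real.log m) ≤ |M| * (4 * lm m) :=
      mul_le_mul_of_nonneg_left hlm1 (abs_nonneg _)
    nlinarith
  have hκ : ∀ n, n0 ≤ n → M * Real.sqrt (Real.log m) / Real.log (ord n) *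
      ((Real.log (ord n) + 1) / (2 * Real.pi)) ≤ |M| * Real.sqrt (Real.log m) ∧
      0 < (Real.log (ord n) + 1) / (2 * Real.pi) := by
    intro n hn
    have h3 := (hsz n hn).2.2
    have h1 : 1 ≤ Real.log (ord n) := by
      rw [Real.le_log_iff_exp_le (by linarith)]
      have := Real.exp_one_lt_d9
      linarith
    refine ⟨?_, by positivity⟩
    have h2 : M * Real.sqrt (Real.log m) ≤ |M| * Real.sqrt (Real.log m) :=
      mul_le_mul_of_nonneg_right (le_abs_self _) (Real.sqrt_nonneg _)
    have h4 : 0 ≤ |M| * Real.sqrt (Real.log m) := by positivity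
    have h5 : (Real.log (ord n) + 1) / (Real.log (ord n) * (2 * Real.pi)) ≤ 1 := by
      rw [div_le_one (by positivity)]
      nlinarith
    calc M * Real.sqrt (Real.log m) / Real.log (ord n) * ((Real.log (ord n) + 1) / (2 * Real.pi)) =
        M * Real.sqrt (Real.log m) * ((Real.log (ord n) + 1) / (Real.log (ord n) * (2 * Real.pi))) := by
          field_simp
      _ ≤ |M| * Real.sqrt (Real.log m) * ((Real.log (ord n) + 1) / (Real.log (ord n) * (2 * Real.pi))) :=
          mul_le_mul_of_nonneg_right h2 (by positivity)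
      _ ≤ |M| * Real.sqrt (Real.log m) * 1 := mul_le_mul_of_nonneg_left h5 h4
      _ = _ := mul_one _
  -- the exceptional sets
  have hsub : cn N {n | ∃ f : ℕ → ℝ, Cut (k + 2) d L f ∧
      (({j : ℕ | j ≤ L ∧ M * Real.sqrt (Real.log m) / Real.log (ord n) < |ord (n + j) - f j|} :
        Set ℕ).ncard : ℝ) ≤ ε * L} ≤
      cn N (({n | n < n0} ∪ {n | ord n < (ord (n + L) - ord n) ^ 2}) ∪
        {n | (B : ℝ) / 4 < cc B fun i => (¬ Law e m (n + 3 * m * i) ∨
          ¬ Law e m (n + (3 * m * i + m)))}) := by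
    refine cn_mono fun n hn hnN hb => ?_
    by_contra hcon
    rw [Set.mem_union, Set.mem_union, not_or, not_or] at hcon
    obtain ⟨⟨c1, c2⟩, c3⟩ := hcon
    simp only [Set.mem_setOf_eq, not_lt] at c1 c2 c3
    obtain ⟨f, hcut, hf⟩ := hb
    obtain ⟨b, hbm, hb0, hbd, hsh⟩ := cut_two k d hcut
    obtain ⟨Z, hZ⟩ : ∃ Z : Finset ℕ, Z = (Finset.range (L + 1)).filter fun j =>
      M * Real.sqrt (Real.log m) / Real.log (ord n) < |ord (n + j) - f j| := ⟨_, rfl⟩
    have hZc : (Z.card : ℝ) ≤ ε * L := by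
      refine le_trans (le_of_eq ?_) hf
      rw [← Set.ncard_coe_finset, hZ]
      congr 2
      ext j
      simp only [Finset.coe_filter, Finset.mem_range, Set.mem_setOf_eq]
      constructor
      · rintro ⟨a1, a2⟩; exact ⟨by omega, a2⟩
      · rintro ⟨a1, a2⟩; exact ⟨by omega, a2⟩
    -- a good block
    obtain ⟨i, hiB, ⟨l, hl, hb1, hb2⟩, hiZ, hP, hQ⟩ : ∃ i < B,
        (∃ l < 2 ^ k * d, b l ≤ 3 * m * i ∧ 3 * m * (i + 1) ≤ b (l + 1)) ∧
        ((Z.filter fun j => j / (3 * m) = i).card : ℝ) ≤ c * m ∧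
        Law e m (n + 3 * m * i) ∧ Law e m (n + (3 * m * i + m)) := by
      by_contra hno
      push Not at hno
      have hcov : Finset.range B ⊆
          (((Finset.range B).filter fun i =>
            ¬ ∃ l < 2 ^ k * d, b l ≤ 3 * m * i ∧ 3 * m * (i + 1) ≤ b (l + 1)) ∪
          ((Finset.range B).filter fun i => c * m < ((Z.filter fun j => j / (3 * m) = i).card : ℝ))) ∪
          ((Finset.range B).filter fun i => (¬ Law e m (n + 3 * m * i) ∨
            ¬ Law e m (n + (3 * m * i + m)))) := by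
        intro i hi
        by_contra hcon
        simp only [Finset.mem_union, Finset.mem_filter, hi, true_and, not_or, not_not, not_lt] at hcon
        obtain ⟨⟨g1, g2⟩, g3, g4⟩ := hcon
        exact hno i (Finset.mem_range.mp hi) g1 g2 g3 g4
      have q1 := (Finset.card_le_card hcov).trans ((Finset.card_union_le _ _).trans
        (Nat.add_le_add_right (Finset.card_union_le _ _) _))
      rw [Finset.card_range] at q1
      have q2 : ((Finset.range B).filter fun i =>
            ¬ ∃ l < 2 ^ k * d, b l ≤ 3 * m * i ∧ 3 * m * (i + 1) ≤ b (l + 1)).card ≤ 2 ^ k * d :=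
        blocks hm0 hb0 (by rw [hbd]; exact hB1)
      have q3 := few_full (Z := Z) (B := B) (δ := c) hm0
      rw [cc_eq] at c3
      have q1r : (B : ℝ) ≤ (((Finset.range B).filter fun i =>
            ¬ ∃ l < 2 ^ k * d, b l ≤ 3 * m * i ∧ 3 * m * (i + 1) ≤ b (l + 1)).card : ℝ) +
          (((Finset.range B).filter fun i =>
            c * m < ((Z.filter fun j => j / (3 * m) = i).card : ℝ)).card : ℝ) +
          (((Finset.range B).filter fun i => (¬ Law e m (n + 3 * m * i) ∨
            ¬ Law e m (n + (3 * m * i + m)))).card : ℝ) := by exact_mod_cast q1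
      have q2r : (((Finset.range B).filter fun i =>
            ¬ ∃ l < 2 ^ k * d, b l ≤ 3 * m * i ∧ 3 * m * (i + 1) ≤ b (l + 1)).card : ℝ) ≤ K * d := by
        rw [hK]
        exact_mod_cast q2
      obtain ⟨x2, hx2⟩ : ∃ x : ℝ, x = (((Finset.range B).filter fun i =>
            c * m < ((Z.filter fun j => j / (3 * m) = i).card : ℝ)).card : ℝ) := ⟨_, rfl⟩
      rw [← hx2] at q1r q3
      have q4 : x2 * m ≤ ε * L / c := by
        rw [le_div_iff₀ hc0]
        calc x2 * m * c = x2 * (c * m) := by ring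
          _ ≤ Z.card := q3
          _ ≤ _ := hZc
      have q5 : K * d * m ≤ K * (ε * L) := by
        rw [mul_assoc]
        exact mul_le_mul_of_nonneg_left hdm hK0.le
      have q6 : K * (ε * L) + ε * L / c ≤ L / 16 := by
        have : K * (ε * L) + ε * L / c = ε * (16 * (K + 1 / c)) * (L / 16) := by
          field_simp
        rw [this]
        calc ε * (16 * (K + 1 / c)) * ((L : ℝ) / 16) ≤ 1 * ((L : ℝ) / 16) :=
            mul_le_mul_of_nonneg_right hε2 (by positivity)
          _ = _ := one_mul _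
      have q7 : (B : ℝ) * m ≤ L / 16 + B / 4 * m := by
        calc (B : ℝ) * m ≤ (K * d + x2 + B / 4) * m := by
              refine mul_le_mul_of_nonneg_right ?_ hmpos.le
              linarith
          _ = K * d * m + x2 * m + B / 4 * m := by ring
          _ ≤ _ := by linarith
      have q8 : (0 : ℝ) < B * m := by positivity
      nlinarith
    have hd' : l + 1 ≤ 2 ^ k * d := hl
    have hbi : b (l + 1) ≤ L + 1 := by rw [← hbd]; exact hbm hd'
    obtain ⟨hκ1, hκ2⟩ := hκ n c1
    set κ := (Real.log (ord n) + 1) / (2 * Real.pi) with hκd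
    have h3i : 3 * m * (i + 1) = 3 * m * i + 3 * m := by ring
    have hlow := hsz n c1
    refine two_blocks' hm0 hEC he1 he2 hP (by rw [add_assoc]; exact hQ)
      (fun j => WW n + (f (3 * m * i + j) - ord n) * κ)
      ((Z.filter fun j => j / (3 * m) = i).image fun j => j - 3 * m * i) ?_ ?_ ?_
    · refine le_trans ?_ hiZ
      exact_mod_cast Finset.card_image_le
    · intro j hj hjZ
      have hjL : 3 * m * i + j ≤ L := by omega
      have hjn : 3 * m * i + j ∉ Z := by
        intro hin
        apply hjZ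
        rw [Finset.mem_image]
        refine ⟨3 * m * i + j, Finset.mem_filter.mpr ⟨hin, ?_⟩, by omega⟩
        rw [Nat.mul_add_div (by omega), Nat.div_eq_of_lt hj, add_zero]
      rw [hZ, Finset.mem_filter, Finset.mem_range, not_and, not_lt] at hjn
      have h2 := hjn (by omega)
      have e1 : n + 3 * m * i + j = n + (3 * m * i + j) := by ring
      rw [e1]
      have hmono : ord n ≤ ord (n + (3 * m * i + j)) := SG.ord_mono hn (by omega)
      have hmono2 : ord (n + (3 * m * i + j)) ≤ ord (n + L) := SG.ord_mono (by omega) (by omega)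
      have hsq : (ord (n + (3 * m * i + j)) - ord n) ^ 2 ≤ ord n := by
        refine le_trans ?_ c2
        exact pow_le_pow_left₀ (by linarith) (by linarith) 2
      have h1 := unf_lin (by linarith : 0 < ord n) hmono hsq
      have h3 : |(ord (n + (3 * m * i + j)) - f (3 * m * i + j)) * κ| ≤
          |M| * Real.sqrt (Real.log m) := by
        rw [abs_mul, abs_of_pos hκ2]
        exact (mul_le_mul_of_nonneg_right h2 hκ2.le).trans hκ1
      have e2 : WW (n + (3 * m * i + j)) - (WW n + (f (3 * m * i + j) - ord n) * κ) =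
          (WW (n + (3 * m * i + j)) - (WW n + (ord (n + (3 * m * i + j)) - ord n) * κ)) +
          (ord (n + (3 * m * i + j)) - f (3 * m * i + j)) * κ := by ring
      change |WW (n + (3 * m * i + j)) - (WW n + (f (3 * m * i + j) - ord n) * κ)| ≤ E
      rw [e2, hE]
      have h4 : |WW (n + (3 * m * i + j)) - (WW n + (ord (n + (3 * m * i + j)) - ord n) * κ)| ≤ 1 := h1
      exact (abs_add_le _ _).trans (by linarith)
    · rcases hsh l hl with hs | hs
      · left
        intro j hj
        have h1 := hs (3 * m * i + j) (by omega) (by omega)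
        rw [D_two] at h1
        have e1 : 3 * m * i + (j + 1) = 3 * m * i + j + 1 := by ring
        have e2 : 3 * m * i + (j + 2) = 3 * m * i + j + 2 := by ring
        change 2 * (WW n + (f (3 * m * i + (j + 1)) - ord n) * κ) ≤
          (WW n + (f (3 * m * i + j) - ord n) * κ) + (WW n + (f (3 * m * i + (j + 2)) - ord n) * κ)
        rw [e1, e2]
        nlinarith
      · right
        intro j hj
        have h1 := hs (3 * m * i + j) (by omega) (by omega)
        rw [D_two] at h1
        have e1 : 3 * m * i + (j + 1) = 3 * m * i + j + 1 := by ring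
        have e2 : 3 * m * i + (j + 2) = 3 * m * i + j + 2 := by ring
        change (WW n + (f (3 * m * i + j) - ord n) * κ) + (WW n + (f (3 * m * i + (j + 2)) - ord n) * κ) ≤
          2 * (WW n + (f (3 * m * i + (j + 1)) - ord n) * κ)
        rw [e1, e2]
        nlinarith
  have hlaw : ∀ s ≤ L, cn N {n | ¬ Law e m (n + s)} ≤ 2 * e * N := by
    intro s hs
    have h1 := hr0 m hmr (N + s) (by omega) (by
      have h2 : (m : ℝ) * Real.log m ≤ L * Real.log L := by
        have h3 : (m : ℝ) ≤ L := by exact_mod_cast hmL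
        have h4 : Real.log m ≤ Real.log L := Real.log_le_log hmpos h3
        have h5 : 0 ≤ Real.log m := by linarith
        nlinarith
      have h6 : Real.log N ≤ Real.log ((N + s : ℕ) : ℝ) := by
        apply Real.log_le_log hNpos
        push_cast
        have : (0 : ℝ) ≤ s := Nat.cast_nonneg _
        linarith
      linarith) m (by linarith) (by omega)
    refine (law_few h1).trans ?_
    push_cast
    have h2 : (s : ℝ) ≤ N := by exact_mod_cast hs.trans hLNn
    nlinarith
  refine hsub.trans ((cn_union _ _ _).trans ?_)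
  have t1 : cn N ({n | n < n0} ∪ {n | ord n < (ord (n + L) - ord n) ^ 2}) ≤
      η / 4 * N + η / 4 * N := by
    refine (cn_union _ _ _).trans (add_le_add ?_ ?_)
    · refine (cn_lt N n0).trans ?_
      have h1 : 4 * n0 / η ≤ N := hN1.trans ((by exact_mod_cast hmN1.trans hmL : (N1 : ℝ) ≤ L).trans hLNr)
      rw [div_le_iff₀ hη] at h1
      linarith
    · exact hN0 N ((hmN0.trans hmL).trans hLNn) L (by omega) hLlogN
  have t2 : cn N {n | (B : ℝ) / 4 < cc B fun i => (¬ Law e m (n + 3 * m * i) ∨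
          ¬ Law e m (n + (3 * m * i + m)))} ≤ η / 4 * N := by
    have h1 := cn_markov N B (fun i n => (¬ Law e m (n + 3 * m * i) ∨
          ¬ Law e m (n + (3 * m * i + m)))) ((B : ℝ) / 4)
    have h2 : ∑ i ∈ Finset.range B, cn N {n | (¬ Law e m (n + 3 * m * i) ∨
          ¬ Law e m (n + (3 * m * i + m)))} ≤ B * (4 * e * N) := by
      calc ∑ i ∈ Finset.range B, cn N {n | (¬ Law e m (n + 3 * m * i) ∨
          ¬ Law e m (n + (3 * m * i + m)))} ≤ ∑ i ∈ Finset.range B, (4 * e * N) := by
            refine Finset.sum_le_sum fun i hi => ?_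
            rw [Finset.mem_range] at hi
            have h3 : 3 * m * (i + 1) ≤ 3 * m * B := Nat.mul_le_mul_left _ hi
            have h4 : 3 * m * (i + 1) = 3 * m * i + 3 * m := by ring
            have h5 := hlaw (3 * m * i) (by omega)
            have h6 := hlaw (3 * m * i + m) (by omega)
            have h7 : cn N {n | (¬ Law e m (n + 3 * m * i) ∨ ¬ Law e m (n + (3 * m * i + m)))} ≤
                cn N ({n | ¬ Law e m (n + 3 * m * i)} ∪ {n | ¬ Law e m (n + (3 * m * i + m))}) :=
              cn_mono fun n _ _ hn => hn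
            exact (h7.trans (cn_union _ _ _)).trans (by linarith)
        _ = B * (4 * e * N) := by rw [Finset.sum_const, Finset.card_range, nsmul_eq_mul]
    have h3 := h1.trans h2
    obtain ⟨x, hx⟩ : ∃ x : ℝ, x = cn N {n | (B : ℝ) / 4 < cc B fun i => (¬ Law e m (n + 3 * m * i) ∨
          ¬ Law e m (n + (3 * m * i + m)))} := ⟨_, rfl⟩
    rw [← hx] at h3 ⊢
    have h4 : x ≤ 16 * e * N := by
      have h5 : x * (B / 4) ≤ 16 * e * N * (B / 4) := by linarith
      exact le_of_mul_le_mul_right h5 (by positivity)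
    have h6 : 16 * e * N ≤ 16 * (η / 64) * N := by gcongr
    linarith
  have : 0 < η * N := by positivity
  linarith

end Pool.Agent.Run7.h649.SH
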