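import Pool.Agent.Run7.h649.SH.Comb

/-! # Lowering the order of the differences: one more sign change per order -/

set_option autoImplicit false

namespace Pool.Agent.Run7.h649.SH

/-- the signs of `g j`, `a ≤ j`, `j + K < b`, are `s, -s, s, …` on `e + 1` consecutive intervals -/
def Pat (K : ℕ) (g : ℕ → ℝ) : ℕ → ℝ → ℕ → ℕ → Prop
  | 0, s, a, b => ∀ j, a ≤ j → j + K < b → 0 ≤ s * g j
  | e + 1, s, a, b => ∃ c, a ≤ c ∧ c ≤ b ∧ (∀ j, a ≤ j → j < c → j + K < b → 0 ≤ s * g j) ∧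
      Pat K g e (-s) c b

lemma split_two (g : ℕ → ℝ) (K a c₀ b : ℕ) (hac : a ≤ c₀)
    (h : ∀ j, a ≤ j → j < c₀ → j + (K + 1) < b → g j ≤ g (j + 1)) :
    ∃ c, a ≤ c ∧ c ≤ c₀ ∧ (∀ j, a ≤ j → j < c → j + K < b → g j ≤ 0) ∧
      (∀ j, c ≤ j → j < c₀ → j + K < b → 0 ≤ g j) := by
  classical
  by_cases hex : ∃ j, a ≤ j ∧ j < c₀ ∧ j + K < b ∧ 0 ≤ g j
  · obtain ⟨c1, c2, c3, c4⟩ := Nat.find_spec hex
    have hmin : ∀ j, j < Nat.find hex → ¬ (a ≤ j ∧ j < c₀ ∧ j + K < b ∧ 0 ≤ g j) :=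
      fun j hj => Nat.find_min hex hj
    refine ⟨Nat.find hex, c1, c2.le, ?_, ?_⟩
    · intro j hj1 hj2 hj3
      by_contra hcon
      push Not at hcon
      exact hmin j hj2 ⟨hj1, by omega, hj3, hcon.le⟩
    · intro j hj1 hj2 hj3
      exact c4.trans (mono_seq (a := Nat.find hex) (b := j)
        (fun i hi1 hi2 => h i (by omega) (by omega) (by omega)) _ _ le_rfl hj1 le_rfl)
  · push Not at hex
    refine ⟨c₀, hac, le_rfl, fun j h1 h2 h3 => (hex j h1 h2 h3).le, fun j h1 h2 => ?_⟩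
    omega

lemma rolle (K : ℕ) (f : ℕ → ℝ) (e : ℕ) : ∀ (s : ℝ) (a b : ℕ), a ≤ b →
    Pat (K + 1) (D (K + 1) f) e s a b → Pat K (D K f) (e + 1) (-s) a b := by
  induction e with
  | zero =>
    intro s a b hab h
    obtain ⟨c, c1, c2, c3, c4⟩ := split_two (fun j => s * D K f j) K a b b hab (by
      intro j h1 h2 h3
      have h4 : 0 ≤ s * (D K f (j + 1) - D K f j) := h j h1 h3
      change s * D K f j ≤ s * D K f (j + 1)
      linarith)
    refine ⟨c, c1, c2, ?_, ?_⟩
    · intro j h1 h2 h3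
      have h4 : s * D K f j ≤ 0 := c3 j h1 h2 h3
      linarith
    · intro j h1 h2
      have h4 : 0 ≤ s * D K f j := c4 j h1 (by omega) h2
      rw [neg_neg]
      exact h4
  | succ e ih =>
    intro s a b hab h
    obtain ⟨c, c1, c2, c3, c4⟩ := h
    obtain ⟨c', d1, d2, d3, d4⟩ := ih (-s) c b c2 c4
    obtain ⟨c'', g1, g2, g3, g4⟩ := split_two (fun j => s * D K f j) K a c b c1 (by
      intro j h1 h2 h3
      have h4 : 0 ≤ s * (D K f (j + 1) - D K f j) := c3 j h1 h2 h3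
      change s * D K f j ≤ s * D K f (j + 1)
      linarith)
    refine ⟨c'', g1, g2.trans c2, ?_, c', g2.trans d1, d2, ?_, d4⟩
    · intro j h1 h2 h3
      have h4 : s * D K f j ≤ 0 := g3 j h1 h2 h3
      linarith
    · intro j h1 h2 h3
      rcases lt_or_ge j c with hj | hj
      · have h4 : 0 ≤ s * D K f j := g4 j h1 hj h3
        rw [neg_neg]
        exact h4
      · exact d3 j hj h2 h3

lemma rolle_iter (f : ℕ → ℝ) (a b : ℕ) (hab : a ≤ b) (k : ℕ) : ∀ (e : ℕ) (s : ℝ),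
    Pat (k + 2) (D (k + 2) f) e s a b → ∃ s', (s' = s ∨ s' = -s) ∧ Pat 2 (D 2 f) (e + k) s' a b := by
  induction k with
  | zero => intro e s h; exact ⟨s, Or.inl rfl, h⟩
  | succ k ih =>
    intro e s h
    have h1 : Pat (k + 2) (D (k + 2) f) (e + 1) (-s) a b := rolle (k + 2) f e s a b hab h
    obtain ⟨s', h2, h3⟩ := ih (e + 1) (-s) h1
    refine ⟨s', ?_, ?_⟩
    · rcases h2 with h2 | h2
      · exact Or.inr h2
      · left; rw [h2, neg_neg]
    · have : e + 1 + k = e + (k + 1) := by omega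
      rw [this] at h3
      exact h3

/-- on `[a, b)` the second differences of `f` have constant sign -/
def Good (f : ℕ → ℝ) (a b : ℕ) : Prop :=
  (∀ j, a ≤ j → j + 2 < b → 0 ≤ D 2 f j) ∨ (∀ j, a ≤ j → j + 2 < b → D 2 f j ≤ 0)

/-- `[a, b)` is cut into `n` good intervals -/
def Seg (f : ℕ → ℝ) : ℕ → ℕ → ℕ → Prop
  | 0, a, b => a = b
  | n + 1, a, b => ∃ c, a ≤ c ∧ c ≤ b ∧ Good f a c ∧ Seg f n c b

lemma seg_le {f : ℕ → ℝ} (n : ℕ) : ∀ a b : ℕ, Seg f n a b → a ≤ b := by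
  cases n with
  | zero => intro a b h; exact le_of_eq h
  | succ n => rintro a b ⟨c, h1, h2, _⟩; exact h1.trans h2

lemma seg_append {f : ℕ → ℝ} (n m : ℕ) : ∀ a b c : ℕ, Seg f n a b → Seg f m b c →
    Seg f (n + m) a c := by
  induction n with
  | zero =>
    intro a b c h1 h2
    have h3 : a = b := h1
    rw [zero_add, h3]
    exact h2
  | succ n ih =>
    intro a b c h1 h2
    obtain ⟨x, x1, x2, x3, x4⟩ := h1
    have h3 : n + 1 + m = (n + m) + 1 := by omega
    rw [h3]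
    exact ⟨x, x1, x2.trans (seg_le _ _ _ h2), x3, ih x b c x4 h2⟩

lemma seg_fun {f : ℕ → ℝ} (n : ℕ) : ∀ a b : ℕ, Seg f n a b → ∃ c : ℕ → ℕ, Monotone c ∧ c 0 = a ∧
    c n = b ∧ ∀ i < n, Good f (c i) (c (i + 1)) := by
  induction n with
  | zero =>
    intro a b h
    exact ⟨fun _ => a, monotone_const, rfl, h, fun i hi => absurd hi (Nat.not_lt_zero _)⟩
  | succ n ih =>
    intro a b h
    obtain ⟨x, x1, x2, x3, x4⟩ := h
    obtain ⟨c, c1, c2, c3, c4⟩ := ih x b x4
    refine ⟨fun i => Nat.casesOn i a c, monotone_nat_of_le_succ ?_, rfl, c3, ?_⟩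
    · intro i
      cases i with
      | zero => change a ≤ c 0; rw [c2]; exact x1
      | succ i => exact c1 (Nat.le_succ i)
    · intro i hi
      cases i with
      | zero => change Good f a (c 0); rw [c2]; exact x3
      | succ i => exact c4 i (by omega)

lemma pat_seg {f : ℕ → ℝ} (k : ℕ) : ∀ (s : ℝ) (a b : ℕ), (s = 1 ∨ s = -1) → a ≤ b →
    Pat 2 (D 2 f) k s a b → Seg f (k + 1) a b := by
  induction k with
  | zero =>
    intro s a b hs hab h
    refine ⟨b, hab, le_rfl, ?_, rfl⟩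
    rcases hs with rfl | rfl
    · left; intro j h1 h2
      have := h j h1 h2
      linarith
    · right; intro j h1 h2
      have := h j h1 h2
      linarith
  | succ k ih =>
    intro s a b hs hab h
    obtain ⟨c, c1, c2, c3, c4⟩ := h
    refine ⟨c, c1, c2, ?_, ih (-s) c b ?_ c2 c4⟩
    · rcases hs with rfl | rfl
      · left; intro j h1 h2
        have := c3 j h1 (by omega) (by omega)
        linarith
      · right; intro j h1 h2
        have := c3 j h1 (by omega) (by omega)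
        linarith
    · rcases hs with rfl | rfl
      · exact Or.inr rfl
      · left; norm_num

lemma piece {f : ℕ → ℝ} {k a b : ℕ} (hab : a ≤ b)
    (h : (∀ j, a ≤ j → j + (k + 2) < b → 0 ≤ D (k + 2) f j) ∨
      (∀ j, a ≤ j → j + (k + 2) < b → D (k + 2) f j ≤ 0)) : Seg f (k + 1) a b := by
  have h1 : ∃ s : ℝ, (s = 1 ∨ s = -1) ∧ Pat (k + 2) (D (k + 2) f) 0 s a b := by
    rcases h with h | h
    · refine ⟨1, Or.inl rfl, ?_⟩
      intro j h1 h2
      have := h j h1 h2
      linarith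
    · refine ⟨-1, Or.inr rfl, ?_⟩
      intro j h1 h2
      have := h j h1 h2
      linarith
  obtain ⟨s, hs, hP⟩ := h1
  obtain ⟨s', hs', hP'⟩ := rolle_iter f a b hab k 0 s hP
  rw [zero_add] at hP'
  refine pat_seg k s' a b ?_ hab hP'
  rcases hs' with rfl | rfl
  · exact hs
  · rcases hs with rfl | rfl
    · exact Or.inr rfl
    · left; norm_num

/-- lowering the order of the differences costs a factor `k + 1` in the number of intervals -/
lemma cut_lin {k d L : ℕ} {f : ℕ → ℝ} (h : Cut (k + 2) d L f) : Cut 2 ((k + 1) * d) L f := by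
  obtain ⟨b, hb, hb0, hbd, hs⟩ := h
  have key : ∀ e, e ≤ d → Seg f ((k + 1) * e) 0 (b e) := by
    intro e
    induction e with
    | zero =>
      intro _
      rw [Nat.mul_zero]
      exact hb0.symm
    | succ e ih =>
      intro he
      have h1 := ih (by omega)
      have h2 : Seg f (k + 1) (b e) (b (e + 1)) := piece (hb (Nat.le_succ e)) (hs e (by omega))
      rw [Nat.mul_succ]
      exact seg_append _ _ _ _ _ h1 h2
  have h1 := key d le_rfl
  rw [hbd] at h1
  obtain ⟨c, c1, c2, c3, c4⟩ := seg_fun _ _ _ h1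
  exact ⟨c, c1, c2, c3, c4⟩

end Pool.Agent.Run7.h649.SH
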