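import Pool.Agent.Run7.h649.SH.Main
import Pool.Agent.Run7.h649.SH.Rolle

/-! # The theorem with all orders and all numbers of pieces at once -/

set_option autoImplicit false

namespace Pool.Agent.Run7.h649.SH

open SG (ord)
open Pool.Agent.R846.UL (cn cn_mono)

lemma cut_pad {K d d' L : ℕ} {f : ℕ → ℝ} (h : Cut K d L f) (hd : d ≤ d') : Cut K d' L f := by
  obtain ⟨b, hb, hb0, hbd, hs⟩ := h
  refine ⟨fun i => b (min i d), fun i j hij => hb (min_le_min_right d hij), ?_, ?_, ?_⟩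
  · change b (min 0 d) = 0
    rw [Nat.zero_min]
    exact hb0
  · change b (min d' d) = L + 1
    rw [min_eq_right hd]
    exact hbd
  · intro i hi
    change (∀ j, b (min i d) ≤ j → j + K < b (min (i + 1) d) → 0 ≤ D K f j) ∨
      (∀ j, b (min i d) ≤ j → j + K < b (min (i + 1) d) → D K f j ≤ 0)
    rcases lt_or_ge i d with h1 | h1
    · rw [min_eq_left h1.le, min_eq_left (Nat.succ_le_of_lt h1)]
      exact hs i h1
    · rw [min_eq_right h1, min_eq_right (h1.trans (Nat.le_succ i))]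
      left
      intro j h2 h3
      omega

theorem unif_main (M : ℝ) {η : ℝ} (hη : 0 < η) : ∃ ε : ℝ, 0 < ε ∧ ∃ m₀ : ℕ, ∀ m : ℕ, m₀ ≤ m →
    ∀ L N : ℕ, 1 ≤ N → (L : ℝ) * Real.log L ≤ Real.log N →
    cn N {n | ∃ (K d : ℕ) (f : ℕ → ℝ), 2 ≤ K ∧ (K : ℝ) * d * m ≤ ε * L ∧ Cut K d L f ∧
      (({j : ℕ | j ≤ L ∧ M * Real.sqrt (Real.log m) / Real.log (ord n) < |ord (n + j) - f j|} :
        Set ℕ).ncard : ℝ) ≤ ε * L} ≤ η * N := by
  obtain ⟨ε, hε, m₀, h⟩ := cut_main 0 M hη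
  refine ⟨ε, hε, m₀ + 1, fun m hm L N hN hL => ?_⟩
  have hm0 : (0 : ℝ) < m := by
    have : 0 < m := by omega
    exact_mod_cast this
  have hd : ((⌊ε * L / m⌋₊ : ℕ) : ℝ) * m ≤ ε * L := by
    have h1 : ((⌊ε * L / m⌋₊ : ℕ) : ℝ) ≤ ε * L / m := Nat.floor_le (by positivity)
    calc ((⌊ε * L / m⌋₊ : ℕ) : ℝ) * m ≤ ε * L / m * m := by gcongr
      _ = ε * L := div_mul_cancel₀ _ hm0.ne'
  refine (cn_mono fun n _ _ hn => ?_).trans (h m (by omega) L ⌊ε * L / m⌋₊ N hN hd hL)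
  obtain ⟨K, d, f, hK, hKd, hf, hf'⟩ := hn
  obtain ⟨k, rfl⟩ : ∃ k, K = k + 2 := ⟨K - 2, by omega⟩
  refine ⟨f, cut_pad (cut_lin hf) (Nat.le_floor ?_), hf'⟩
  rw [le_div_iff₀ hm0]
  have h1 : (((k + 1) * d : ℕ) : ℝ) ≤ ((k + 2 : ℕ) : ℝ) * d := by
    push_cast
    have : (0 : ℝ) ≤ d := Nat.cast_nonneg _
    nlinarith
  calc (((k + 1) * d : ℕ) : ℝ) * m ≤ ((k + 2 : ℕ) : ℝ) * d * m := by gcongr
    _ ≤ ε * L := hKd

end Pool.Agent.Run7.h649.SH
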